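import Pool.Agent.Y924.UF.Stm

/-!
UF-COD: codes for all relations on a finite set in a field with a nondegenerate additive
functional to `F_p`.
-/

set_option autoImplicit false
set_option linter.all false

namespace Pool.Agent.Y528.UF

open Finset Polynomial

lemma one {K : Type} [Field K] [Infinite K] {ι : Type} [Fintype ι] [DecidableEq ι] (f : ι → K)
    (hf : Function.Injective f) (C1 : Finset (ι → K)) (hC : ∀ c ∈ C1, c ≠ 0) :
    ∃ u : K, (∀ a, u ≠ f a) ∧ ∀ c ∈ C1, ∑ a, c a / (u - f a) ≠ 0 := by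
  classical
  let P : (ι → K) → K[X] := fun c => ∑ a, C (c a) * ∏ b ∈ univ.erase a, (X - C (f b))
  have hP : ∀ c ∈ C1, P c ≠ 0 := by
    intro c hc h0
    obtain ⟨a, ha⟩ := Function.ne_iff.1 (hC c hc)
    have h1 : (P c).eval (f a) = 0 := by rw [h0]; simp
    have h2 : (P c).eval (f a) = c a * ∏ b ∈ univ.erase a, (f a - f b) := by
      simp only [P, eval_finset_sum, eval_mul, eval_C, eval_prod, eval_sub, eval_X]
      rw [Finset.sum_eq_single a]
      · intro b _ hb
        have : ∏ i ∈ univ.erase b, (f a - f i) = 0 :=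
          Finset.prod_eq_zero (i := a) (Finset.mem_erase.2 ⟨hb.symm, mem_univ _⟩) (sub_self _)
        rw [this, mul_zero]
      · intro h
        exact absurd (mem_univ _) h
    rw [h2] at h1
    rcases mul_eq_zero.1 h1 with h | h
    · exact ha h
    · rw [Finset.prod_eq_zero_iff] at h
      obtain ⟨b, hb, hb2⟩ := h
      exact (Finset.mem_erase.1 hb).1 (hf (sub_eq_zero.1 hb2)).symm
  have hQ : (∏ c ∈ C1, P c) * ∏ a, (X - C (f a)) ≠ 0 := by
    apply mul_ne_zero
    · exact Finset.prod_ne_zero_iff.2 hP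
    · exact Finset.prod_ne_zero_iff.2 fun a _ => X_sub_C_ne_zero _
  have hu : ∃ u : K, ((∏ c ∈ C1, P c) * ∏ a, (X - C (f a))).eval u ≠ 0 := by
    by_contra hcon
    push Not at hcon
    apply hQ
    apply Polynomial.funext
    intro r
    rw [hcon r]
    simp
  obtain ⟨u, hu⟩ := hu
  rw [eval_mul, eval_prod, eval_prod] at hu
  have hu1 := left_ne_zero_of_mul hu
  have hu2 := right_ne_zero_of_mul hu
  rw [Finset.prod_ne_zero_iff] at hu1 hu2
  have hua : ∀ a, u - f a ≠ 0 := by
    intro a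
    have := hu2 a (mem_univ _)
    simpa using this
  refine ⟨u, fun a h => hua a (sub_eq_zero.2 h), fun c hc h0 => hu1 c hc ?_⟩
  have h3 : (P c).eval u = (∑ a, c a / (u - f a)) * ∏ b, (u - f b) := by
    simp only [P, eval_finset_sum, eval_mul, eval_C, eval_prod, eval_sub, eval_X]
    rw [Finset.sum_mul]
    refine Finset.sum_congr rfl fun a _ => ?_
    rw [← Finset.mul_prod_erase univ (fun b => u - f b) (mem_univ a)]
    have := hua a
    field_simp
  rw [h3, h0, zero_mul]

theorem t_COD : Pool.Agent.Y924.UF.S_COD := by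
  classical
  intro p hp K _ _ lam hlam S
  have hp0 : (p : K) = 0 := by
    by_contra h0
    obtain ⟨s, hs⟩ := hlam (p : K) h0
    apply hs
    rw [mul_comm, ← nsmul_eq_mul, map_nsmul, nsmul_eq_mul]
    simp
  haveI : CharP K p := (CharP.charP_iff_prime_eq_zero hp.out).2 hp0
  letI : Algebra (ZMod p) K := ZMod.algebra K p
  let L : K →ₗ[ZMod p] ZMod p := AddMonoidHom.toZModLinearMap p lam
  have hL : ∀ x, L x = lam x := fun x => rfl
  have hinj : Function.Injective (algebraMap (ZMod p) K) := (algebraMap (ZMod p) K).injective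
  let f : S → K := fun a => (a : K)
  have hf : Function.Injective f := Subtype.val_injective
  obtain ⟨u, hu, hu1⟩ := one f hf
    (((univ : Finset (S → ZMod p)).filter (fun c => c ≠ 0)).image
      (fun c a => algebraMap (ZMod p) K (c a))) (by
    intro c hc
    obtain ⟨d, hd, rfl⟩ := Finset.mem_image.1 hc
    have hd' : d ≠ 0 := (Finset.mem_filter.1 hd).2
    obtain ⟨a, ha⟩ := Function.ne_iff.1 hd'
    refine Function.ne_iff.2 ⟨a, ?_⟩
    intro h
    apply ha
    apply hinj
    rw [h]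
    simp)
  have hu2 : ∀ d : S → ZMod p, d ≠ 0 → ∑ a, algebraMap (ZMod p) K (d a) / (u - f a) ≠ 0 :=
    fun d hd => hu1 _ (Finset.mem_image.2 ⟨d, Finset.mem_filter.2 ⟨mem_univ _, hd⟩, rfl⟩)
  obtain ⟨w, hw, hw1⟩ := one f hf
    (((univ : Finset (S × S → ZMod p)).filter (fun c => c ≠ 0)).image
      (fun c b => ∑ a, algebraMap (ZMod p) K (c (a, b)) / (u - f a))) (by
    intro c hc
    obtain ⟨d, hd, rfl⟩ := Finset.mem_image.1 hc
    have hd' : d ≠ 0 := (Finset.mem_filter.1 hd).2
    obtain ⟨⟨a, b⟩, hab⟩ := Function.ne_iff.1 hd'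
    refine Function.ne_iff.2 ⟨b, ?_⟩
    refine hu2 (fun a => d (a, b)) ?_
    exact Function.ne_iff.2 ⟨a, hab⟩)
  have hw2 : ∀ d : S × S → ZMod p, d ≠ 0 →
      ∑ x : S × S, algebraMap (ZMod p) K (d x) / ((u - f x.1) * (w - f x.2)) ≠ 0 := by
    intro d hd h
    refine hw1 _ (Finset.mem_image.2 ⟨d, Finset.mem_filter.2 ⟨mem_univ _, hd⟩, rfl⟩) ?_
    rw [← h, Fintype.sum_prod_type_right]
    refine Finset.sum_congr rfl fun b _ => ?_
    rw [Finset.sum_div]
    refine Finset.sum_congr rfl fun a _ => ?_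
    rw [div_div]
  let hh : S × S → K := fun x => 1 / ((u - f x.1) * (w - f x.2))
  let Φ : K →ₗ[ZMod p] (S × S → ZMod p) :=
    LinearMap.pi fun x => L.comp (LinearMap.mulRight (ZMod p) (hh x))
  have hΦ : ∀ s x, Φ s x = lam (s * hh x) := fun s x => rfl
  have hsurj : LinearMap.range Φ = ⊤ := by
    by_contra hne
    obtain ⟨g, hg0, hg⟩ := Submodule.exists_le_ker_of_lt_top _ (lt_top_iff_ne_top.2 hne)
    let d : S × S → ZMod p := fun x => g (fun j => if x = j then 1 else 0)
    have hgd : ∀ v, g v = ∑ x, v x • d x := fun v => LinearMap.pi_apply_eq_sum_univ g v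
    have hd : d ≠ 0 := by
      intro h0
      apply hg0
      refine LinearMap.ext fun v => ?_
      rw [hgd, h0]
      simp
    obtain ⟨s, hs⟩ := hlam _ (hw2 d hd)
    apply hs
    have h1 : g (Φ s) = 0 := hg (LinearMap.mem_range_self Φ s)
    rw [hgd] at h1
    rw [← h1, Finset.mul_sum, ← hL, map_sum]
    refine Finset.sum_congr rfl fun x _ => ?_
    rw [hΦ, ← hL]
    have e : s * (algebraMap (ZMod p) K (d x) / ((u - f x.1) * (w - f x.2))) =
        d x • (s * hh x) := by
      rw [Algebra.smul_def]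
      simp only [hh]
      ring
    rw [e, map_smul, smul_eq_mul, smul_eq_mul, mul_comm]
  refine ⟨u, w, fun a ha => ⟨hu ⟨a, ha⟩, hw ⟨a, ha⟩⟩, fun R => ?_⟩
  obtain ⟨s, hs⟩ := LinearMap.range_eq_top.1 hsurj
    (fun x => if R (f x.1) (f x.2) then 0 else 1)
  refine ⟨s, fun a ha b hb => ?_⟩
  have h1 := congrFun hs (⟨a, ha⟩, ⟨b, hb⟩)
  rw [hΦ] at h1
  have h2 : s * hh (⟨a, ha⟩, ⟨b, hb⟩) = s / ((u - a) * (w - b)) := by
    simp only [hh, f]
    ring
  rw [h2] at h1
  rw [h1]
  simp only [f]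
  by_cases hR : R a b
  · simp [hR]
  · simp [hR]

end Pool.Agent.Y528.UF
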