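import Pool.Agent.Y453.UF.Stm3
import Pool.Agent.Y96.UF.Sum

/-!
# UF-TQSUM (job 11462, helper528): direct sums of tensor parts
-/

set_option autoImplicit false

namespace Pool.Agent.Y528.UF

open Pool.Agent.Y453.UF
open Finset
open scoped Matrix

/-- the underlying function of the block diagonal sum -/
def gl {m m' : ℕ} (b : Fin m → Fin m → ℤ) (b' : Fin m' → Fin m' → ℤ)
    (x y : Fin (m + m')) : ℤ :=
  Sum.elim (fun q => Sum.elim (fun q' => b q q') (fun _ => 0) (finSumFinEquiv.symm y))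
    (fun r => Sum.elim (fun _ => 0) (fun r' => b' r r') (finSumFinEquiv.symm y))
    (finSumFinEquiv.symm x)

theorem gl11 {m m' : ℕ} (b : Fin m → Fin m → ℤ) (b' : Fin m' → Fin m' → ℤ) (q q' : Fin m) :
    gl b b' (Fin.castAdd m' q) (Fin.castAdd m' q') = b q q' := by
  simp [gl]

theorem gl12 {m m' : ℕ} (b : Fin m → Fin m → ℤ) (b' : Fin m' → Fin m' → ℤ) (q : Fin m)
    (q' : Fin m') : gl b b' (Fin.castAdd m' q) (Fin.natAdd m q') = 0 := by
  simp [gl]

theorem gl21 {m m' : ℕ} (b : Fin m → Fin m → ℤ) (b' : Fin m' → Fin m' → ℤ) (q : Fin m')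
    (q' : Fin m) : gl b b' (Fin.natAdd m q) (Fin.castAdd m' q') = 0 := by
  simp [gl]

theorem gl22 {m m' : ℕ} (b : Fin m → Fin m → ℤ) (b' : Fin m' → Fin m' → ℤ) (q q' : Fin m') :
    gl b b' (Fin.natAdd m q) (Fin.natAdd m q') = b' q q' := by
  simp [gl]

/-- the block diagonal sum -/
def glue {m m' : ℕ} (b : AltM (Fin m)) (b' : AltM (Fin m')) : AltM (Fin (m + m')) :=
  ⟨gl (b : Fin m → Fin m → ℤ) (b' : Fin m' → Fin m' → ℤ), by
    intro i j
    induction i using Fin.addCases with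
    | left i =>
      induction j using Fin.addCases with
      | left j => rw [gl11, gl11]; exact b.2 i j
      | right j => rw [gl12, gl21, neg_zero]
    | right i =>
      induction j using Fin.addCases with
      | left j => rw [gl12, gl21, neg_zero]
      | right j => rw [gl22, gl22]; exact b'.2 i j⟩

/-- splitting of the tensors -/
def spl (m m' : ℕ) : (Fin 8 → Fin (m + m') → ℤ) ≃+ (Fin 8 → Fin m → ℤ) × (Fin 8 → Fin m' → ℤ) where
  toFun X := (fun p q => X p (Fin.castAdd m' q), fun p q => X p (Fin.natAdd m q))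
  invFun Y := fun p x => Sum.elim (Y.1 p) (Y.2 p) (finSumFinEquiv.symm x)
  left_inv X := by
    funext p x
    induction x using Fin.addCases with
    | left x => simp
    | right x => simp
  right_inv Y := by
    refine Prod.ext ?_ ?_
    · funext p q
      simp
    · funext p q
      simp
  map_add' X Y := rfl

/-- a trivial third component -/
def tr0 (A B : Type) [AddCommGroup A] [AddCommGroup B] :
    A × B ≃+ A × B × ((Fin 2 × Fin 0) ⊕ (Fin 8 × Fin 0) → ℤ) where
  toFun x := (x.1, x.2, 0)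
  invFun y := (y.1, y.2.1)
  left_inv x := rfl
  right_inv y := by
    refine Prod.ext rfl (Prod.ext rfl ?_)
    funext t
    rcases t with ⟨_, t⟩ | ⟨_, t⟩ <;> exact t.elim0
  map_add' x y := by
    refine Prod.ext rfl (Prod.ext rfl ?_)
    funext t
    rcases t with ⟨_, t⟩ | ⟨_, t⟩ <;> exact t.elim0

theorem tqsum : S_TQSUM := by
  rintro a m k l m' k' l' ⟨b, f, hf⟩ ⟨b', f', hf'⟩
  obtain ⟨h, hh⟩ := Pool.Agent.Y96.UF.sum_gram k l k' l' 0 1
  refine ⟨fun i => glue (b i) (b' i),
    (spl m m').trans ((AddEquiv.prodCongr f f').trans ((tr0 _ _).trans h)), fun X Y => ?_⟩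
  have e := hh (f (spl m m' X).1, f' (spl m m' X).2, 0) (f (spl m m' Y).1, f' (spl m m' Y).2, 0)
  have e0 : ((0 : (Fin 2 × Fin 0) ⊕ (Fin 8 × Fin 0) → ℤ)) ⬝ᵥ (gram 0 0 1).mulVec 0 = 0 := by
    rw [zero_dotProduct]
  have e1 : -(∑ i, ∑ p, ∑ q, ∑ p', ∑ q',
        a i p p' * (glue (b i) (b' i) : Fin (m + m') → Fin (m + m') → ℤ) q q' * X p q * Y p' q')
      = f (spl m m' X).1 ⬝ᵥ (gram k l 1).mulVec (f (spl m m' Y).1) +
        f' (spl m m' X).2 ⬝ᵥ (gram k' l' 1).mulVec (f' (spl m m' Y).2) := by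
    rw [← hf, ← hf', ← neg_add, ← Finset.sum_add_distrib]
    congr 1
    refine Finset.sum_congr rfl fun i _ => ?_
    rw [← Finset.sum_add_distrib]
    refine Finset.sum_congr rfl fun p _ => ?_
    rw [Fin.sum_univ_add]
    congr 1
    · refine Finset.sum_congr rfl fun q _ => ?_
      refine Finset.sum_congr rfl fun p' _ => ?_
      rw [Fin.sum_univ_add]
      have z : ∑ q' : Fin m', a i p p' * (glue (b i) (b' i) : Fin (m + m') → Fin (m + m') → ℤ)
          (Fin.castAdd m' q) (Fin.natAdd m q') * X p (Fin.castAdd m' q) * Y p' (Fin.natAdd m q')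
          = 0 := by
        refine Finset.sum_eq_zero fun q' _ => ?_
        have : (glue (b i) (b' i) : Fin (m + m') → Fin (m + m') → ℤ)
          (Fin.castAdd m' q) (Fin.natAdd m q') = 0 := gl12 _ _ _ _
        rw [this]; ring
      rw [z, add_zero]
      refine Finset.sum_congr rfl fun q' _ => ?_
      have : (glue (b i) (b' i) : Fin (m + m') → Fin (m + m') → ℤ)
          (Fin.castAdd m' q) (Fin.castAdd m' q') = (b i : Fin m → Fin m → ℤ) q q' := gl11 _ _ _ _
      rw [this]
      rfl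
    · refine Finset.sum_congr rfl fun q _ => ?_
      refine Finset.sum_congr rfl fun p' _ => ?_
      rw [Fin.sum_univ_add]
      have z : ∑ q' : Fin m, a i p p' * (glue (b i) (b' i) : Fin (m + m') → Fin (m + m') → ℤ)
          (Fin.natAdd m q) (Fin.castAdd m' q') * X p (Fin.natAdd m q) * Y p' (Fin.castAdd m' q')
          = 0 := by
        refine Finset.sum_eq_zero fun q' _ => ?_
        have : (glue (b i) (b' i) : Fin (m + m') → Fin (m + m') → ℤ)
          (Fin.natAdd m q) (Fin.castAdd m' q') = 0 := gl21 _ _ _ _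
        rw [this]; ring
      rw [z, zero_add]
      refine Finset.sum_congr rfl fun q' _ => ?_
      have : (glue (b i) (b' i) : Fin (m + m') → Fin (m + m') → ℤ)
          (Fin.natAdd m q) (Fin.natAdd m q') = (b' i : Fin m' → Fin m' → ℤ) q q' := gl22 _ _ _ _
      rw [this]
      rfl
  rw [e1]
  refine Eq.trans ?_ e.symm
  dsimp only
  rw [e0, add_zero]

theorem tq0 : S_TQ0 := by
  intro a
  refine ⟨fun _ => 0, ⟨⟨fun _ => 0, fun _ => 0, fun X => ?_, fun X => ?_⟩, fun X Y => ?_⟩,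
    fun X Y => ?_⟩
  · funext p q
    exact q.elim0
  · funext t
    rcases t with ⟨_, t⟩ | ⟨_, t⟩ <;> exact t.elim0
  · funext t
    rcases t with ⟨_, t⟩ | ⟨_, t⟩ <;> exact t.elim0
  · have h1 : ∀ Z : (Fin 2 × Fin 0) ⊕ (Fin 8 × Fin 0) → ℤ, Z ⬝ᵥ (gram 0 0 1).mulVec Z = 0 := by
      intro Z
      have : Z = 0 := by
        funext t
        rcases t with ⟨_, t⟩ | ⟨_, t⟩ <;> exact t.elim0
      rw [this, zero_dotProduct]
    have h2 : -(∑ i, ∑ p, ∑ q : Fin 0, ∑ p', ∑ q' : Fin 0,
        a i p p' * ((0 : AltM (Fin 0)) : Fin 0 → Fin 0 → ℤ) q q' * X p q * Y p' q') = 0 := by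
      simp
    exact h2.trans (h1 0).symm

end Pool.Agent.Y528.UF
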